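import Mathlib

namespace Pool.Agent.Lib.P66ba75

/-- generalised binomial coefficient `x(x-1)⋯(x-j+1)/j!` for real `x` -/
noncomputable def gbinom (x : ℝ) (j : ℕ) : ℝ :=
  (∏ i ∈ Finset.range j, (x - i)) / (j.factorial : ℝ)

/-- The binary Krawtchouk polynomial
`K_m(x;N) = ∑_{j=0}^m (-1)^j C(x,j) C(N-x,m-j)`, as a function of the real number `x`. -/
noncomputable def kraw (m N : ℕ) (x : ℝ) : ℝ :=
  ∑ j ∈ Finset.range (m + 1), (-1) ^ j * gbinom x j * gbinom (N - x) (m - j)

/-- The number `e_k(n,a)` of edges of the complete oddly bipartite `2k`-graph on `n` vertices with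
parts of size `a` and `n - a`. -/
def edges (k n a : ℕ) : ℕ :=
  ∑ i ∈ (Finset.range (2 * k + 1)).filter Odd, a.choose i * (n - a).choose (2 * k - i)

end Pool.Agent.Lib.P66ba75
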