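import Mathlib
import Pool.Agent.Lib.P66ba75.Defs

namespace Pool.Agent.Lib.P66ba75

open Finset PowerSeries

lemma gbinom_zero (x : ℝ) : gbinom x 0 = 1 := by simp [gbinom]

lemma gbinom_succ (x : ℝ) (j : ℕ) : ((j : ℝ) + 1) * gbinom x (j + 1) = (x - j) * gbinom x j := by
  unfold gbinom
  rw [Finset.prod_range_succ, Nat.factorial_succ]
  push_cast
  have h1 : ((j : ℝ) + 1) ≠ 0 := by positivity
  have h2 : (j.factorial : ℝ) ≠ 0 := by positivity
  field_simp

lemma gbinom_pascal (x : ℝ) (j : ℕ) :
    gbinom (x + 1) (j + 1) = gbinom x (j + 1) + gbinom x j := by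
  induction j with
  | zero => 
    simp [gbinom]
  | succ j ih =>
    have h1 := gbinom_succ (x + 1) (j + 1)
    have h2 := gbinom_succ x (j + 1)
    have h3 := gbinom_succ x j
    rw [ih] at h1
    push_cast at h1 h2
    have h4 : ((j : ℝ) + 1 + 1) ≠ 0 := by positivity
    apply mul_left_cancel₀ h4
    linear_combination h1 - h2 - h3

lemma gbinom_nat (a j : ℕ) : gbinom (a : ℝ) j = (a.choose j : ℝ) := by
  induction a generalizing j with
  | zero =>
    cases j with
    | zero => simp [gbinom]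
    | succ j => 
      have : (∏ i ∈ Finset.range (j + 1), ((0 : ℕ) - (i : ℝ))) = 0 :=
        Finset.prod_eq_zero (Finset.mem_range.mpr (Nat.succ_pos j)) (by simp)
      simp [gbinom] at this ⊢
      simp [this]
  | succ a ih =>
    cases j with
    | zero => simp [gbinom]
    | succ j =>
      push_cast
      rw [gbinom_pascal, ih, ih, Nat.choose_succ_succ]
      push_cast
      ring

/-- generating series of `C(x,j)` -/
noncomputable def serA (x : ℝ) : PowerSeries ℝ := PowerSeries.mk (fun j => gbinom x j)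
/-- generating series of `(-1)^j C(x,j)` -/
noncomputable def serB (x : ℝ) : PowerSeries ℝ := PowerSeries.mk (fun j => (-1) ^ j * gbinom x j)

lemma kraw_eq_coeff (m N : ℕ) (x : ℝ) :
    kraw m N x = coeff m (serB x * serA ((N : ℝ) - x)) := by
  rw [PowerSeries.coeff_mul, Finset.Nat.sum_antidiagonal_eq_sum_range_succ_mk]
  simp [kraw, serA, serB]

lemma serA_add_one (x : ℝ) : serA (x + 1) = (1 + X) * serA x := by
  ext j
  cases j with
  | zero => simp [serA, gbinom_zero, add_mul]
  | succ j =>
    rw [add_mul, one_mul, map_add, PowerSeries.coeff_succ_X_mul]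
    simp only [serA, PowerSeries.coeff_mk]
    exact gbinom_pascal x j

lemma serB_add_one (x : ℝ) : serB (x + 1) = (1 - X) * serB x := by
  ext j
  cases j with
  | zero => simp [serB, gbinom_zero, sub_mul]
  | succ j =>
    rw [sub_mul, one_mul, map_sub, PowerSeries.coeff_succ_X_mul]
    simp only [serB, PowerSeries.coeff_mk]
    rw [gbinom_pascal]
    ring

lemma serA_deriv (x : ℝ) : (1 + X) * (d⁄dX ℝ (serA x)) = PowerSeries.C x * serA x := by
  ext j
  cases j with
  | zero =>
    have := gbinom_succ x 0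
    simp only [Nat.cast_zero, zero_add, one_mul, sub_zero] at this
    rw [add_mul, one_mul, map_add, PowerSeries.coeff_zero_X_mul, PowerSeries.coeff_derivative,
      PowerSeries.coeff_C_mul]
    simp only [serA, PowerSeries.coeff_mk, zero_add, this]
    simp
  | succ j =>
    rw [add_mul, one_mul, map_add, PowerSeries.coeff_succ_X_mul, PowerSeries.coeff_derivative,
      PowerSeries.coeff_derivative, PowerSeries.coeff_C_mul]
    simp only [serA, PowerSeries.coeff_mk]
    have := gbinom_succ x (j + 1)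
    push_cast at this ⊢
    linear_combination this

lemma serB_deriv (x : ℝ) : (1 - X) * (d⁄dX ℝ (serB x)) = - (PowerSeries.C x * serB x) := by
  ext j
  cases j with
  | zero =>
    have := gbinom_succ x 0
    simp only [Nat.cast_zero, zero_add, one_mul, sub_zero] at this
    rw [sub_mul, one_mul, map_sub, PowerSeries.coeff_zero_X_mul, PowerSeries.coeff_derivative,
      map_neg, PowerSeries.coeff_C_mul]
    simp only [serB, PowerSeries.coeff_mk, zero_add, this]
    simp
  | succ j =>
    rw [sub_mul, one_mul, map_sub, PowerSeries.coeff_succ_X_mul, PowerSeries.coeff_derivative,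
      PowerSeries.coeff_derivative, map_neg, PowerSeries.coeff_C_mul]
    simp only [serB, PowerSeries.coeff_mk]
    have := gbinom_succ x (j + 1)
    push_cast at this ⊢
    linear_combination (-1) ^ (j + 1 + 1) * this

/-- difference identity -/
lemma kraw_sub (m N : ℕ) (x : ℝ) :
    kraw (m + 1) (N + 1) x - kraw (m + 1) (N + 1) (x + 1) = 2 * kraw m N x := by
  rw [kraw_eq_coeff, kraw_eq_coeff, kraw_eq_coeff]
  have h1 : (((N + 1 : ℕ) : ℝ) - x) = ((N : ℝ) - x) + 1 := by push_cast; ring
  have h2 : (((N + 1 : ℕ) : ℝ) - (x + 1)) = ((N : ℝ) - x) := by push_cast; ring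
  rw [h1, h2, serA_add_one, serB_add_one, ← map_sub]
  have h3 : serB x * ((1 + X) * serA ((N : ℝ) - x)) - (1 - X) * serB x * serA ((N : ℝ) - x)
      = X * (PowerSeries.C 2 * (serB x * serA ((N : ℝ) - x))) := by
    have : (PowerSeries.C (2 : ℝ) : PowerSeries ℝ) = 2 := map_ofNat _ 2
    rw [this]
    ring
  rw [h3, PowerSeries.coeff_succ_X_mul, PowerSeries.coeff_C_mul]

/-- sum identity -/
lemma kraw_add (m N : ℕ) (x : ℝ) :
    kraw m (N + 1) x + kraw m (N + 1) (x + 1) = 2 * kraw m N x := by
  rw [kraw_eq_coeff, kraw_eq_coeff, kraw_eq_coeff]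
  have h1 : (((N + 1 : ℕ) : ℝ) - x) = ((N : ℝ) - x) + 1 := by push_cast; ring
  have h2 : (((N + 1 : ℕ) : ℝ) - (x + 1)) = ((N : ℝ) - x) := by push_cast; ring
  rw [h1, h2, serA_add_one, serB_add_one, ← map_add]
  have h3 : serB x * ((1 + X) * serA ((N : ℝ) - x)) + (1 - X) * serB x * serA ((N : ℝ) - x)
      = (PowerSeries.C 2 * (serB x * serA ((N : ℝ) - x))) := by
    have : (PowerSeries.C (2 : ℝ) : PowerSeries ℝ) = 2 := map_ofNat _ 2
    rw [this]
    ring
  rw [h3, PowerSeries.coeff_C_mul]

/-- three-term recurrence in the degree -/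
lemma kraw_rec (m N : ℕ) (x : ℝ) :
    ((m : ℝ) + 2) * kraw (m + 2) N x
      = ((N : ℝ) - 2 * x) * kraw (m + 1) N x - ((N : ℝ) - m) * kraw m N x := by
  set F := serB x * serA ((N : ℝ) - x) with hF
  have hode : (1 - X) * (1 + X) * (d⁄dX ℝ F)
      = (PowerSeries.C ((N : ℝ) - 2 * x) - PowerSeries.C (N : ℝ) * X) * F := by
    have h1 := serA_deriv ((N : ℝ) - x)
    have h2 := serB_deriv x
    have h3 : d⁄dX ℝ F = (d⁄dX ℝ (serB x)) * serA ((N : ℝ) - x)
        + serB x * (d⁄dX ℝ (serA ((N : ℝ) - x))) := by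
      rw [hF, Derivation.leibniz, smul_eq_mul, smul_eq_mul]
      ring
    rw [h3, hF]
    have h4 : PowerSeries.C ((N : ℝ) - 2 * x) = (PowerSeries.C ((N : ℝ) - x) : PowerSeries ℝ)
        - PowerSeries.C x := by rw [← map_sub]; congr 1; ring
    have h5 : (PowerSeries.C (N : ℝ) : PowerSeries ℝ) = PowerSeries.C ((N : ℝ) - x)
        + PowerSeries.C x := by rw [← map_add]; congr 1; ring
    rw [h4, h5]
    linear_combination (1 - X) * serB x * h1 + (1 + X) * serA ((N : ℝ) - x) * h2
  have hc := congrArg (coeff (m + 1)) hode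
  have hl : (1 - X) * (1 + X) * (d⁄dX ℝ F) = (d⁄dX ℝ F) - X * (X * (d⁄dX ℝ F)) := by ring
  have hr : (PowerSeries.C ((N : ℝ) - 2 * x) - PowerSeries.C (N : ℝ) * X) * F
      = PowerSeries.C ((N : ℝ) - 2 * x) * F - X * (PowerSeries.C (N : ℝ) * F) := by ring
  rw [hl, hr, map_sub, map_sub, PowerSeries.coeff_succ_X_mul, PowerSeries.coeff_succ_X_mul,
    PowerSeries.coeff_C_mul, PowerSeries.coeff_C_mul, PowerSeries.coeff_derivative] at hc
  have hx : coeff m (X * (d⁄dX ℝ F)) = (m : ℝ) * coeff m F := by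
    cases m with
    | zero => simp
    | succ m =>
      rw [PowerSeries.coeff_succ_X_mul, PowerSeries.coeff_derivative]
      push_cast; ring
  rw [hx, hF, ← kraw_eq_coeff, ← kraw_eq_coeff, ← kraw_eq_coeff] at hc
  push_cast at hc
  linear_combination hc

lemma kraw_zero (N : ℕ) (x : ℝ) : kraw 0 N x = 1 := by simp [kraw, gbinom_zero]

lemma kraw_one (N : ℕ) (x : ℝ) : kraw 1 N x = N - 2 * x := by
  simp only [kraw, Finset.sum_range_succ, Finset.sum_range_zero, gbinom]
  simp
  ring

/-- reflection symmetry -/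
lemma kraw_symm (m N : ℕ) (x : ℝ) : kraw m N (N - x) = (-1) ^ m * kraw m N x := by
  induction m using Nat.strong_induction_on with
  | _ m ih =>
    match m with
    | 0 => simp [kraw_zero]
    | 1 => simp only [kraw_one]; ring
    | m + 2 =>
      have h1 := kraw_rec m N (N - x)
      have h2 := kraw_rec m N x
      rw [ih (m + 1) (by omega), ih m (by omega)] at h1
      have h3 : ((m : ℝ) + 2) ≠ 0 := by positivity
      apply mul_left_cancel₀ h3
      rw [h1]
      have h4 : ((m : ℝ) + 2) * ((-1) ^ (m + 2) * kraw (m + 2) N x)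
          = (-1) ^ (m + 2) * (((m : ℝ) + 2) * kraw (m + 2) N x) := by ring
      rw [h4, h2]
      ring

/-- relation between the number of edges and the Krawtchouk polynomial -/
lemma edges_eq (k n a : ℕ) (ha : a ≤ n) :
    2 * (edges k n a : ℝ) + kraw (2 * k) n a = (n.choose (2 * k) : ℝ) := by
  have h1 : kraw (2 * k) n a = ∑ j ∈ Finset.range (2 * k + 1),
      (-1) ^ j * ((a.choose j : ℝ) * ((n - a).choose (2 * k - j) : ℝ)) := by
    rw [kraw]
    refine Finset.sum_congr rfl (fun j _ => ?_)
    rw [gbinom_nat, ← Nat.cast_sub ha, gbinom_nat, mul_assoc]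
  have h2 : (n.choose (2 * k) : ℝ) = ∑ j ∈ Finset.range (2 * k + 1),
      ((a.choose j : ℝ) * ((n - a).choose (2 * k - j) : ℝ)) := by
    have := Nat.add_choose_eq a (n - a) (2 * k)
    rw [Nat.add_sub_cancel' ha] at this
    rw [this, Finset.Nat.sum_antidiagonal_eq_sum_range_succ_mk]
    push_cast
    rfl
  have h3 : (edges k n a : ℝ) = ∑ j ∈ Finset.range (2 * k + 1),
      (if Odd j then ((a.choose j : ℝ) * ((n - a).choose (2 * k - j) : ℝ)) else 0) := by
    rw [edges]
    push_cast
    rw [Finset.sum_filter]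
  rw [h1, h2, h3, Finset.mul_sum, ← Finset.sum_add_distrib]
  refine Finset.sum_congr rfl (fun j _ => ?_)
  by_cases hj : Odd j
  · rw [if_pos hj, hj.neg_one_pow]; ring
  · rw [if_neg hj, (Nat.not_odd_iff_even.mp hj).neg_one_pow]; ring

end Pool.Agent.Lib.P66ba75
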