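import Mathlib
import Pool.Agent.Lib.P66ba75.Kraw

namespace Pool.Agent.Lib.P66ba75

open Finset Filter Topology

/-- rescaled Krawtchouk polynomials: `kap m ε u`, with `ε = 1/N`, `u = (N-2x)/√N` -/
noncomputable def kap : ℕ → ℝ → ℝ → ℝ
  | 0, _, _ => 1
  | 1, _, u => u
  | (m + 2), ε, u => (u * kap (m + 1) ε u - (1 - m * ε) * kap m ε u) / (m + 2)

lemma kap_zero (ε u : ℝ) : kap 0 ε u = 1 := rfl
lemma kap_one (ε u : ℝ) : kap 1 ε u = u := rfl
lemma kap_rec (m : ℕ) (ε u : ℝ) :
    ((m : ℝ) + 2) * kap (m + 2) ε u = u * kap (m + 1) ε u - (1 - m * ε) * kap m ε u := by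
  have h : ((m : ℝ) + 2) ≠ 0 := by positivity
  rw [kap]
  field_simp

/-- the scaling relation -/
lemma kraw_eq_kap (m N : ℕ) (hN : 0 < N) (x : ℝ) :
    kraw m N x = (√(N : ℝ)) ^ m * kap m (1 / N) ((N - 2 * x) / √(N : ℝ)) := by
  have hN' : (0 : ℝ) < N := by exact_mod_cast hN
  have hs : (0 : ℝ) < √(N : ℝ) := Real.sqrt_pos.mpr hN'
  have hss : √(N : ℝ) ^ 2 = N := Real.sq_sqrt hN'.le
  induction m using Nat.strong_induction_on with
  | _ m ih =>
    match m with
    | 0 => simp [kraw_zero, kap_zero]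
    | 1 =>
      rw [kraw_one, kap_one, pow_one]
      field_simp
    | m + 2 =>
      have h1 := kraw_rec m N x
      have h2 := kap_rec m (1 / N) ((N - 2 * x) / √(N : ℝ))
      rw [ih (m + 1) (by omega), ih m (by omega)] at h1
      have h3 : ((m : ℝ) + 2) ≠ 0 := by positivity
      apply mul_left_cancel₀ h3
      rw [h1]
      have h4 : ((m : ℝ) + 2) * (√(N : ℝ) ^ (m + 2) * kap (m + 2) (1 / N) ((N - 2 * x) / √(N : ℝ)))
          = √(N : ℝ) ^ (m + 2) * (((m : ℝ) + 2) * kap (m + 2) (1 / N) ((N - 2 * x) / √(N : ℝ))) := by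
        ring
      rw [h4, h2]
      have h5 : √(N : ℝ) ^ (m + 2) * (((N - 2 * x) / √(N : ℝ)) *
          kap (m + 1) (1 / N) ((N - 2 * x) / √(N : ℝ)))
          = (N - 2 * x) * (√(N : ℝ) ^ (m + 1) * kap (m + 1) (1 / N) ((N - 2 * x) / √(N : ℝ))) := by
        field_simp
        ring
      have h6 : √(N : ℝ) ^ (m + 2) * ((1 - (m : ℝ) * (1 / N)) *
          kap m (1 / N) ((N - 2 * x) / √(N : ℝ)))
          = ((N : ℝ) - m) * (√(N : ℝ) ^ m * kap m (1 / N) ((N - 2 * x) / √(N : ℝ))) := by
        rw [pow_add, hss]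
        field_simp
      rw [mul_sub, h5, h6]

lemma kap_neg (m : ℕ) (ε u : ℝ) : kap m ε (-u) = (-1) ^ m * kap m ε u := by
  induction m using Nat.strong_induction_on with
  | _ m ih =>
    match m with
    | 0 => simp [kap_zero]
    | 1 => simp [kap_one]
    | m + 2 =>
      have h1 := kap_rec m ε (-u)
      have h2 := kap_rec m ε u
      rw [ih (m + 1) (by omega), ih m (by omega)] at h1
      have h3 : ((m : ℝ) + 2) ≠ 0 := by positivity
      apply mul_left_cancel₀ h3
      rw [h1]
      have h4 : ((m : ℝ) + 2) * ((-1) ^ (m + 2) * kap (m + 2) ε u)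
          = (-1) ^ (m + 2) * (((m : ℝ) + 2) * kap (m + 2) ε u) := by ring
      rw [h4, h2]
      ring

/-- joint continuity -/
lemma kap_cont (m : ℕ) : Continuous (fun p : ℝ × ℝ => kap m p.1 p.2) := by
  induction m using Nat.strong_induction_on with
  | _ m ih =>
    match m with
    | 0 => simp only [kap_zero]; exact continuous_const
    | 1 => simp only [kap_one]; exact continuous_snd
    | m + 2 =>
      have h1 := ih (m + 1) (by omega)
      have h0 := ih m (by omega)
      simp only [kap]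
      exact ((continuous_snd.mul h1).sub
        ((continuous_const.sub (continuous_const.mul continuous_fst)).mul h0)).div_const _

/-- derivative in `u` -/
noncomputable def kapD : ℕ → ℝ → ℝ → ℝ
  | 0, _, _ => 0
  | 1, _, _ => 1
  | (m + 2), ε, u =>
    (kap (m + 1) ε u + u * kapD (m + 1) ε u - (1 - m * ε) * kapD m ε u) / (m + 2)

lemma kapD_rec (m : ℕ) (ε u : ℝ) : ((m : ℝ) + 2) * kapD (m + 2) ε u
    = kap (m + 1) ε u + u * kapD (m + 1) ε u - (1 - m * ε) * kapD m ε u := by
  have h : ((m : ℝ) + 2) ≠ 0 := by positivity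
  rw [kapD]
  field_simp

lemma kap_hasDerivAt (m : ℕ) (ε u : ℝ) : HasDerivAt (fun v => kap m ε v) (kapD m ε u) u := by
  induction m using Nat.strong_induction_on generalizing u with
  | _ m ih =>
    match m with
    | 0 => simp only [kap_zero, kapD]; exact hasDerivAt_const _ _
    | 1 => simp only [kap_one, kapD]; exact hasDerivAt_id u
    | m + 2 =>
      have h1 := ih (m + 1) (by omega) u
      have h0 := ih m (by omega) u
      simp only [kap, kapD]
      have h2 := ((hasDerivAt_id u).mul h1).sub (h0.const_mul (1 - (m : ℝ) * ε))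
      have h3 := h2.div_const ((m : ℝ) + 2)
      refine HasDerivAt.congr_deriv h3 ?_
      simp only [id_eq, one_mul]

lemma kapD_cont (m : ℕ) : Continuous (fun p : ℝ × ℝ => kapD m p.1 p.2) := by
  induction m using Nat.strong_induction_on with
  | _ m ih =>
    match m with
    | 0 => simp only [kapD]; exact continuous_const
    | 1 => simp only [kapD]; exact continuous_const
    | m + 2 =>
      have h1 := ih (m + 1) (by omega)
      have h0 := ih m (by omega)
      have hk := kap_cont (m + 1)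
      simp only [kapD]
      exact ((hk.add (continuous_snd.mul h1)).sub
        ((continuous_const.sub (continuous_const.mul continuous_fst)).mul h0)).div_const _

/-- at `ε = 0` (Hermite case) the derivative of `h_{m+1}` is `h_m` -/
lemma kapD_zero_eq (m : ℕ) (u : ℝ) : kapD (m + 1) 0 u = kap m 0 u := by
  induction m using Nat.strong_induction_on with
  | _ m ih =>
    match m with
    | 0 => simp [kapD, kap_zero]
    | 1 =>
      have h := kapD_rec 0 0 u
      have h1 : kapD 1 0 u = 1 := rfl
      have h0 : kapD 0 0 u = 0 := rfl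
      rw [h1, h0, kap_one] at h
      rw [kap_one]
      norm_num at h
      linarith
    | m + 2 =>
      have h1 := kapD_rec (m + 1) 0 u
      rw [ih (m + 1) (by omega), ih m (by omega)] at h1
      have h2 := kap_rec m 0 u
      have h3 : (((m + 1 : ℕ) : ℝ) + 2) ≠ 0 := by positivity
      apply mul_left_cancel₀ h3
      rw [h1]
      push_cast
      linear_combination (-1 : ℝ) * h2

/-- positivity far out, uniformly in `ε` -/
lemma kap_pos (m : ℕ) (ε u : ℝ) (hε : 0 ≤ ε) (hε' : m * ε ≤ 1) (hu : (m : ℝ) + 3 ≤ u) :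
    0 < kap m ε u ∧ kap m ε u ≤ kap (m + 1) ε u := by
  induction m with
  | zero =>
    rw [kap_zero, kap_one]
    norm_num at hu
    constructor
    · norm_num
    · linarith
  | succ m ih =>
    have hm : (m : ℝ) * ε ≤ 1 := by
      push_cast at hε'
      nlinarith
    push_cast at hu
    obtain ⟨h1, h2⟩ := ih hm (by linarith)
    refine ⟨lt_of_lt_of_le h1 h2, ?_⟩
    have h3 := kap_rec m ε u
    have h4 : 0 < (m : ℝ) + 2 := by positivity
    have h5 : (1 - (m : ℝ) * ε) * kap m ε u ≤ kap m ε u := by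
      have : 0 ≤ (m : ℝ) * ε := by positivity
      nlinarith
    have h6 : ((m : ℝ) + 2) * kap (m + 1) ε u ≤ ((m : ℝ) + 2) * kap (m + 2) ε u := by
      rw [h3]
      nlinarith
    exact le_of_mul_le_mul_left h6 h4

/-- Lipschitz dependence on `ε` on compact sets -/
lemma kap_lip (m : ℕ) (R : ℝ) (hR : 0 ≤ R) : ∃ B L : ℝ, 0 ≤ B ∧ 0 ≤ L ∧
    ∀ ε u : ℝ, 0 ≤ ε → ε ≤ 1 → |u| ≤ R → |kap m ε u| ≤ B ∧
      |kap m ε u - kap m 0 u| ≤ L * ε := by
  induction m using Nat.strong_induction_on with
  | _ m ih =>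
    match m with
    | 0 => exact ⟨1, 0, by norm_num, le_rfl, fun ε u h1 h2 h3 => by simp [kap_zero]⟩
    | 1 => exact ⟨R, 0, hR, le_rfl, fun ε u h1 h2 h3 => by simpa [kap_one] using h3⟩
    | m + 2 =>
      obtain ⟨B1, L1, hB1, hL1, h1⟩ := ih (m + 1) (by omega)
      obtain ⟨B0, L0, hB0, hL0, h0⟩ := ih m (by omega)
      refine ⟨R * B1 + (1 + m) * B0, R * L1 + L0 + m * B0, by positivity, by positivity, ?_⟩
      intro ε u hε hε1 hu
      obtain ⟨h11, h12⟩ := h1 ε u hε hε1 hu
      obtain ⟨h01, h02⟩ := h0 ε u hε hε1 hu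
      have hm2 : (1 : ℝ) ≤ (m : ℝ) + 2 := by
        have : (0 : ℝ) ≤ m := by positivity
        linarith
      have hm0 : (0 : ℝ) < (m : ℝ) + 2 := by linarith
      constructor
      · rw [kap, abs_div, abs_of_pos hm0, div_le_iff₀ hm0]
        have e1 : |u * kap (m + 1) ε u - (1 - m * ε) * kap m ε u|
            ≤ |u| * |kap (m + 1) ε u| + |1 - m * ε| * |kap m ε u| := by
          have := abs_sub (u * kap (m + 1) ε u) ((1 - m * ε) * kap m ε u)
          rwa [abs_mul, abs_mul] at this
        have e2 : |1 - (m : ℝ) * ε| ≤ 1 + m := by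
          rw [abs_le]
          have : 0 ≤ (m : ℝ) * ε := by positivity
          have : (m : ℝ) * ε ≤ m := by
            have : (0 : ℝ) ≤ m := by positivity
            nlinarith
          constructor <;> linarith
        have e3 : |u| * |kap (m + 1) ε u| ≤ R * B1 :=
          mul_le_mul hu h11 (abs_nonneg _) hR
        have e4 : |1 - (m : ℝ) * ε| * |kap m ε u| ≤ (1 + m) * B0 :=
          mul_le_mul e2 h01 (abs_nonneg _) (by positivity)
        have e5 : 0 ≤ R * B1 + (1 + (m : ℝ)) * B0 := by positivity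
        nlinarith
      · have e0 : kap (m + 2) ε u - kap (m + 2) 0 u
            = (u * (kap (m + 1) ε u - kap (m + 1) 0 u) - (kap m ε u - kap m 0 u)
              + m * ε * kap m ε u) / (m + 2) := by
          rw [kap, kap]; ring
        rw [e0, abs_div, abs_of_pos hm0, div_le_iff₀ hm0]
        have e1 : |u * (kap (m + 1) ε u - kap (m + 1) 0 u) - (kap m ε u - kap m 0 u)
              + m * ε * kap m ε u| ≤ |u| * |kap (m + 1) ε u - kap (m + 1) 0 u|
              + |kap m ε u - kap m 0 u| + m * ε * |kap m ε u| := by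
          have a1 := abs_add_le (u * (kap (m + 1) ε u - kap (m + 1) 0 u) - (kap m ε u - kap m 0 u))
            (m * ε * kap m ε u)
          have a2 := abs_sub (u * (kap (m + 1) ε u - kap (m + 1) 0 u)) (kap m ε u - kap m 0 u)
          rw [abs_mul] at a2
          rw [abs_mul (m * ε : ℝ), abs_of_nonneg (by positivity : 0 ≤ (m : ℝ) * ε)] at a1
          linarith
        have e3 : |u| * |kap (m + 1) ε u - kap (m + 1) 0 u| ≤ R * (L1 * ε) :=
          mul_le_mul hu h12 (abs_nonneg _) hR
        have e4 : (m : ℝ) * ε * |kap m ε u| ≤ m * ε * B0 :=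
          mul_le_mul_of_nonneg_left h01 (by positivity)
        have e5 : 0 ≤ (R * L1 + L0 + m * B0) * ε := by positivity
        nlinarith

end Pool.Agent.Lib.P66ba75
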