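import Mathlib
import Pool.Agent.Lib.P66ba75.Kappa

namespace Pool.Agent.Lib.P66ba75

open Finset Filter Topology

lemma kap0_cont (m : ℕ) : Continuous (fun u : ℝ => kap m 0 u) :=
  (kap_cont m).comp (continuous_const.prodMk continuous_id)

lemma kap0_deriv (m : ℕ) (u : ℝ) : HasDerivAt (fun v => kap (m + 1) 0 v) (kap m 0 u) u := by
  have := kap_hasDerivAt (m + 1) 0 u
  rwa [kapD_zero_eq] at this

/-- relation with Mathlib's Hermite polynomials -/
lemma hermite_eq (m : ℕ) (u : ℝ) :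
    Polynomial.aeval u (Polynomial.hermite m) = (m.factorial : ℝ) * kap m 0 u := by
  induction m generalizing u with
  | zero => simp [kap_zero]
  | succ m ih =>
    rw [Polynomial.hermite_succ, map_sub, map_mul, Polynomial.aeval_X, ih u]
    have h1 : Polynomial.aeval u (Polynomial.derivative (Polynomial.hermite m))
        = deriv (fun v : ℝ => Polynomial.aeval v (Polynomial.hermite m)) u := by
      rw [Polynomial.deriv_aeval]
    rw [h1, funext ih]
    rcases m with _ | m
    · simp [kap_zero, kap_one]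
    · have h2 := (kap0_deriv m u).const_mul ((m + 1).factorial : ℝ)
      rw [h2.deriv]
      have h3 := kap_rec m 0 u
      rw [Nat.factorial_succ (m + 1)]
      push_cast
      linear_combination (-((m + 1).factorial : ℝ)) * h3

/-- Largest zeros and interlacing for the Hermite case. -/
lemma largest (m : ℕ) : ∃ ζ : ℝ, 0 ≤ ζ ∧ kap (m + 1) 0 ζ = 0 ∧ (∀ u, ζ < u → 0 < kap (m + 1) 0 u) ∧
    (∀ u, ζ ≤ u → 0 < kap m 0 u) ∧ (1 ≤ m → 0 < ζ) := by
  induction m with
  | zero =>
    exact ⟨0, le_rfl, by simp [kap_one], fun u hu => by simpa [kap_one] using hu,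
      fun u _ => by simp [kap_zero], fun h => absurd h (by norm_num)⟩
  | succ m ih =>
    obtain ⟨ζ, hζ0, hζ, hpos, hpos', -⟩ := ih
    set R : ℝ := ((m + 2 : ℕ) : ℝ) + 3 with hR
    have hneg : kap (m + 2) 0 ζ < 0 := by
      have h1 := kap_rec m 0 ζ
      rw [hζ] at h1
      have h2 := hpos' ζ le_rfl
      have h3 : (0 : ℝ) < (m : ℝ) + 2 := by positivity
      by_contra hcon
      push Not at hcon
      have : 0 ≤ ((m : ℝ) + 2) * kap (m + 2) 0 ζ := by positivity
      nlinarith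
    have hbig : ∀ u, R ≤ u → 0 < kap (m + 2) 0 u := fun u hu =>
      (kap_pos (m + 2) 0 u le_rfl (by simp) hu).1
    have hζR : ζ < R := by
      by_contra hcon
      push Not at hcon
      exact absurd (hbig ζ hcon) (not_lt.mpr hneg.le)
    have hcomp : IsCompact (Set.Icc ζ R ∩ {u | kap (m + 2) 0 u ≤ 0}) :=
      isCompact_Icc.inter_right (isClosed_le (kap0_cont _) continuous_const)
    obtain ⟨z, hz⟩ := hcomp.exists_isGreatest ⟨ζ, ⟨le_rfl, hζR.le⟩, hneg.le⟩
    obtain ⟨⟨⟨hz1, hz2⟩, hz3⟩, hz4⟩ := hz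
    have hgt : ∀ u, z < u → 0 < kap (m + 2) 0 u := by
      intro u hu
      by_contra hcon
      push Not at hcon
      have huR : u < R := by
        by_contra h
        push Not at h
        exact absurd (hbig u h) (not_lt.mpr hcon)
      have := hz4 ⟨⟨hz1.trans hu.le, huR.le⟩, hcon⟩
      exact absurd this (not_le.mpr hu)
    have hz0 : kap (m + 2) 0 z = 0 := by
      apply le_antisymm hz3
      have ht : Tendsto (fun u => kap (m + 2) 0 u) (𝓝[>] z) (𝓝 (kap (m + 2) 0 z)) :=
        ((kap0_cont (m + 2)).tendsto z).mono_left nhdsWithin_le_nhds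
      exact ge_of_tendsto ht (by
        filter_upwards [self_mem_nhdsWithin] with u hu
        exact (hgt u hu).le)
    have hzζ : ζ < z := by
      rcases hz1.lt_or_eq with h | h
      · exact h
      · exfalso
        rw [h] at hneg
        exact absurd hz0 hneg.ne
    exact ⟨z, (hζ0.trans hzζ.le), hz0, hgt, fun u hu => hpos u (lt_of_lt_of_le hzζ hu),
      fun _ => lt_of_le_of_lt hζ0 hzζ⟩

/-- Sonin's argument: the largest zero of `h_{m+1}` is the unique minimum point of `h_{m+2}` on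
`[0, ∞)`. -/
lemma sonin (m : ℕ) (ζ : ℝ) (hζ0 : 0 ≤ ζ) (hζ : kap (m + 1) 0 ζ = 0)
    (hpos : ∀ u, ζ < u → 0 < kap (m + 1) 0 u) (hpos' : ∀ u, ζ ≤ u → 0 < kap m 0 u) :
    kap (m + 2) 0 ζ < 0 ∧ ∀ u, 0 ≤ u → u ≠ ζ → kap (m + 2) 0 ζ < kap (m + 2) 0 u := by
  have hm2 : (0 : ℝ) < (m : ℝ) + 2 := by positivity
  have hneg : kap (m + 2) 0 ζ < 0 := by
    have h1 := kap_rec m 0 ζ
    rw [hζ] at h1
    have h2 := hpos' ζ le_rfl
    by_contra hcon
    push Not at hcon
    have : 0 ≤ ((m : ℝ) + 2) * kap (m + 2) 0 ζ := by positivity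
    nlinarith
  refine ⟨hneg, ?_⟩
  intro u hu hne
  rcases lt_or_gt_of_ne hne with hlt | hgt
  · -- Sonin function
    set f : ℝ → ℝ := fun v => ((m : ℝ) + 2) * kap (m + 2) 0 v ^ 2 + kap (m + 1) 0 v ^ 2 with hf
    have hfd : ∀ v, HasDerivAt f (2 * v * kap (m + 1) 0 v ^ 2) v := by
      intro v
      have h2 := kap0_deriv (m + 1) v
      have h1 := kap0_deriv m v
      have h3 := ((h2.pow 2).const_mul ((m : ℝ) + 2)).add (h1.pow 2)
      refine HasDerivAt.congr_deriv h3 ?_
      have h4 := kap_rec m 0 v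
      simp only [Nat.add_one_sub_one, pow_one, Nat.cast_ofNat]
      linear_combination (2 * kap (m + 1) 0 v) * h4
    have hfc : Continuous f := by
      have h1 := kap0_cont (m + 1)
      have h2 := kap0_cont (m + 2)
      simp only [hf]
      fun_prop
    have hmono : MonotoneOn f (Set.Ici 0) := by
      apply monotoneOn_of_deriv_nonneg (convex_Ici 0) hfc.continuousOn
      · exact fun v _ => (hfd v).differentiableAt.differentiableWithinAt
      · intro v hv
        rw [interior_Ici] at hv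
        rw [(hfd v).deriv]
        have : (0 : ℝ) < v := hv
        positivity
    -- strictness near ζ
    have hne' : ∀ᶠ z in 𝓝[≠] ζ, kap (m + 1) 0 z ≠ 0 :=
      (kap0_deriv m ζ).eventually_ne (hpos' ζ le_rfl).ne'
    have hne'' : ∀ᶠ z in 𝓝[<] ζ, kap (m + 1) 0 z ≠ 0 :=
      hne'.filter_mono (nhdsWithin_mono _ (fun z hz => ne_of_lt hz))
    obtain ⟨t, ht1, ht2⟩ := mem_nhdsLT_iff_exists_Ioo_subset.mp hne''
    set t' := max t u with ht'
    have ht'ζ : t' < ζ := max_lt ht1 hlt
    have ht'0 : 0 ≤ t' := hu.trans (le_max_right _ _)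
    have hstrict : StrictMonoOn f (Set.Icc t' ζ) := by
      apply strictMonoOn_of_deriv_pos (convex_Icc _ _) hfc.continuousOn
      intro v hv
      rw [interior_Icc] at hv
      rw [(hfd v).deriv]
      have hv0 : 0 < v := lt_of_le_of_lt ht'0 hv.1
      have hvne : kap (m + 1) 0 v ≠ 0 :=
        ht2 ⟨lt_of_le_of_lt (le_max_left _ _) hv.1, hv.2⟩
      positivity
    have h1 : f u ≤ f t' := hmono hu ht'0 (le_max_right _ _)
    have h2 : f t' < f ζ := hstrict ⟨le_rfl, ht'ζ.le⟩ ⟨ht'ζ.le, le_rfl⟩ ht'ζ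
    have h3 : f u < f ζ := lt_of_le_of_lt h1 h2
    simp only [hf, hζ] at h3
    have h4 : kap (m + 2) 0 u ^ 2 < kap (m + 2) 0 ζ ^ 2 := by
      have : ((m : ℝ) + 2) * kap (m + 2) 0 u ^ 2 < ((m : ℝ) + 2) * kap (m + 2) 0 ζ ^ 2 := by
        nlinarith [sq_nonneg (kap (m + 1) 0 u)]
      exact lt_of_mul_lt_mul_left this hm2.le
    have h5 : |kap (m + 2) 0 u| < |kap (m + 2) 0 ζ| := sq_lt_sq.mp h4
    rw [abs_of_neg hneg] at h5
    have := neg_abs_le (kap (m + 2) 0 u)
    linarith
  · have hstrict : StrictMonoOn (fun v => kap (m + 2) 0 v) (Set.Ici ζ) := by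
      apply strictMonoOn_of_deriv_pos (convex_Ici _) (kap0_cont _).continuousOn
      intro v hv
      rw [interior_Ici] at hv
      rw [(kap0_deriv (m + 1) v).deriv]
      exact hpos v hv
    exact hstrict (Set.mem_Ici.mpr le_rfl) (Set.mem_Ici.mpr hgt.le) hgt

end Pool.Agent.Lib.P66ba75
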