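import Mathlib
import Pool.Agent.Lib.P66ba75.Herm

namespace Pool.Agent.Lib.P66ba75

open Finset Filter Topology

/-- Perturbation of the largest zero. -/
lemma root_lemma (m : ℕ) (ζ : ℝ) (hζ0 : 0 ≤ ζ) (hζ : kap (m + 1) 0 ζ = 0)
    (hpos : ∀ u, ζ < u → 0 < kap (m + 1) 0 u) (hpos' : ∀ u, ζ ≤ u → 0 < kap m 0 u) (δ₀ : ℝ)
    (hδ₀ : 0 < δ₀) :
    ∃ δ > 0, δ ≤ δ₀ ∧ ∃ ε₀ > 0, ∃ C : ℝ, 0 ≤ C ∧ ∀ ε, 0 ≤ ε → ε ≤ ε₀ → ∃ v, |v - ζ| < δ ∧
      |v - ζ| ≤ C * ε ∧ kap (m + 1) ε v = 0 ∧ (∀ w, v < w → 0 < kap (m + 1) ε w) ∧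
      (∀ w, |w - ζ| < δ → w < v → kap (m + 1) ε w < 0) := by
  -- derivative positive near `(0, ζ)`
  have hD0 : 0 < kapD (m + 1) 0 ζ := by rw [kapD_zero_eq]; exact hpos' ζ le_rfl
  have hDc : ContinuousAt (fun p : ℝ × ℝ => kapD (m + 1) p.1 p.2) (0, ζ) :=
    (kapD_cont (m + 1)).continuousAt
  set c : ℝ := kapD (m + 1) 0 ζ / 2 with hc
  have hc0 : 0 < c := by positivity
  have hev : ∀ᶠ p : ℝ × ℝ in 𝓝 (0, ζ), c < kapD (m + 1) p.1 p.2 := by
    apply hDc.eventually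
    apply lt_mem_nhds
    show c < kapD (m + 1) 0 ζ
    rw [hc]; linarith
  obtain ⟨r, hr, hball⟩ := Metric.eventually_nhds_iff.mp hev
  have hD : ∀ ε u, |ε| < r → |u - ζ| < r → c < kapD (m + 1) ε u := by
    intro ε u hε hu
    apply hball (y := (ε, u))
    rw [Prod.dist_eq, max_lt_iff]
    exact ⟨by simpa [Real.dist_eq] using hε, by simpa [Real.dist_eq] using hu⟩
  -- choose δ
  set δ : ℝ := min δ₀ (r / 2) with hδ
  have hδpos : 0 < δ := lt_min hδ₀ (by positivity)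
  have hδr : δ < r := lt_of_le_of_lt (min_le_right _ _) (by linarith)
  -- strict monotonicity of `kap (m+1) ε` on `[ζ-δ, ζ+δ]`
  have hmono : ∀ ε, |ε| < r → StrictMonoOn (fun u => kap (m + 1) ε u) (Set.Icc (ζ - δ) (ζ + δ)) := by
    intro ε hε
    apply strictMonoOn_of_deriv_pos (convex_Icc _ _)
    · exact ((kap_cont (m + 1)).comp (continuous_const.prodMk continuous_id)).continuousOn
    · intro v hv
      rw [interior_Icc] at hv
      rw [(kap_hasDerivAt (m + 1) ε v).deriv]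
      have : |v - ζ| < r := by
        rw [abs_lt]; constructor <;> linarith [hv.1, hv.2]
      exact hc0.trans (hD ε v hε this)
  -- signs at the end points
  have hleft : kap (m + 1) 0 (ζ - δ) < 0 := by
    have := hmono 0 (by simpa using hr) ⟨le_rfl, by linarith⟩ ⟨by linarith, by linarith⟩
      (show ζ - δ < ζ by linarith)
    simpa [hζ] using this
  have hleft' : ∀ᶠ ε in 𝓝 (0 : ℝ), kap (m + 1) ε (ζ - δ) < 0 := by
    have hcont : ContinuousAt (fun ε => kap (m + 1) ε (ζ - δ)) 0 :=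
      ((kap_cont (m + 1)).comp (continuous_id.prodMk continuous_const)).continuousAt
    exact hcont.eventually (gt_mem_nhds hleft)
  set R : ℝ := ((m + 1 : ℕ) : ℝ) + 3 with hR
  have hright : ∀ᶠ ε in 𝓝 (0 : ℝ), ∀ u ∈ Set.Icc (ζ + δ) R, 0 < kap (m + 1) ε u := by
    apply isCompact_Icc.eventually_forall_of_forall_eventually
    intro u hu
    have hcont : ContinuousAt (fun p : ℝ × ℝ => kap (m + 1) p.1 p.2) (0, u) :=
      (kap_cont (m + 1)).continuousAt
    exact hcont.eventually (lt_mem_nhds (hpos u (by linarith [hu.1])))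
  have hright' : ∀ᶠ ε in 𝓝 (0 : ℝ), 0 < kap (m + 1) ε (ζ + δ) := by
    have hcont : ContinuousAt (fun ε => kap (m + 1) ε (ζ + δ)) 0 :=
      ((kap_cont (m + 1)).comp (continuous_id.prodMk continuous_const)).continuousAt
    exact hcont.eventually (lt_mem_nhds (hpos _ (by linarith)))
  obtain ⟨r2, hr2, hr2'⟩ := Metric.eventually_nhds_iff.mp ((hleft'.and hright').and hright)
  obtain ⟨B, L, hB, hL, hlip⟩ := kap_lip (m + 1) (ζ + δ) (by linarith)
  set ε₀ : ℝ := min (min (r / 2) (r2 / 2)) (1 / ((m + 1 : ℕ) : ℝ)) with hε₀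
  have hm1 : (0 : ℝ) < ((m + 1 : ℕ) : ℝ) := by positivity
  refine ⟨δ, hδpos, min_le_left _ _, ε₀, by positivity, L / c, by positivity, ?_⟩
  intro ε hε hεε
  have hεr : |ε| < r := by
    rw [abs_of_nonneg hε]
    have : ε ≤ r / 2 := hεε.trans ((min_le_left _ _).trans (min_le_left _ _))
    linarith
  have hεr2 : dist ε 0 < r2 := by
    rw [Real.dist_eq, sub_zero, abs_of_nonneg hε]
    have : ε ≤ r2 / 2 := hεε.trans ((min_le_left _ _).trans (min_le_right _ _))
    linarith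
  have hεm : ((m + 1 : ℕ) : ℝ) * ε ≤ 1 := by
    have : ε ≤ 1 / ((m + 1 : ℕ) : ℝ) := hεε.trans (min_le_right _ _)
    rw [le_div_iff₀ hm1] at this
    linarith
  have hε1 : ε ≤ 1 := by
    have : ε ≤ 1 / ((m + 1 : ℕ) : ℝ) := hεε.trans (min_le_right _ _)
    have h2 : (1 : ℝ) / ((m + 1 : ℕ) : ℝ) ≤ 1 := by
      rw [div_le_one hm1]; push_cast; linarith [Nat.cast_nonneg (α := ℝ) m]
    linarith
  obtain ⟨⟨h1, h2⟩, h3⟩ := hr2' hεr2
  -- intermediate value theorem
  have hcont : ContinuousOn (fun u => kap (m + 1) ε u) (Set.Icc (ζ - δ) (ζ + δ)) :=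
    ((kap_cont (m + 1)).comp (continuous_const.prodMk continuous_id)).continuousOn
  obtain ⟨v, hv, hv0⟩ := intermediate_value_Ioo (by linarith) hcont ⟨h1, h2⟩
  have hvd : |v - ζ| < δ := by rw [abs_lt]; constructor <;> linarith [hv.1, hv.2]
  have hvI : v ∈ Set.Icc (ζ - δ) (ζ + δ) := ⟨hv.1.le, hv.2.le⟩
  refine ⟨v, hvd, ?_, hv0, ?_, ?_⟩
  · -- quantitative
    have hvR : |v| ≤ ζ + δ := by
      rw [abs_le]
      constructor
      · linarith [hv.1]
      · linarith [hv.2]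
    have hl := (hlip ε v hε hε1 hvR).2
    simp only at hv0
    rw [hv0, zero_sub, abs_neg] at hl
    -- mean value
    have hmv : c * |v - ζ| ≤ |kap (m + 1) 0 v| := by
      rcases lt_trichotomy v ζ with hlt | heq | hgt
      · obtain ⟨ξ, hξ, hξ'⟩ := exists_deriv_eq_slope (fun u => kap (m + 1) 0 u) hlt
          (kap0_cont _).continuousOn
          (fun x _ => (kap_hasDerivAt (m + 1) 0 x).differentiableAt.differentiableWithinAt)
        rw [(kap_hasDerivAt (m + 1) 0 ξ).deriv] at hξ'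
        have hD' := hD 0 ξ (by simpa using hr) (by
          rw [abs_lt]; constructor <;> linarith [hξ.1, hξ.2, hv.1])
        rw [hξ', hζ, zero_sub, lt_div_iff₀ (by linarith)] at hD'
        rw [abs_of_neg (by linarith : v - ζ < 0)]
        have := le_abs_self (-(kap (m + 1) 0 v))
        rw [abs_neg] at this
        nlinarith
      · rw [heq, hζ]; simp
      · obtain ⟨ξ, hξ, hξ'⟩ := exists_deriv_eq_slope (fun u => kap (m + 1) 0 u) hgt
          (kap0_cont _).continuousOn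
          (fun x _ => (kap_hasDerivAt (m + 1) 0 x).differentiableAt.differentiableWithinAt)
        rw [(kap_hasDerivAt (m + 1) 0 ξ).deriv] at hξ'
        have hD' := hD 0 ξ (by simpa using hr) (by
          rw [abs_lt]; constructor <;> linarith [hξ.1, hξ.2, hv.2])
        rw [hξ', hζ, sub_zero, lt_div_iff₀ (by linarith)] at hD'
        rw [abs_of_pos (by linarith : 0 < v - ζ)]
        have := le_abs_self (kap (m + 1) 0 v)
        nlinarith
    rw [div_mul_eq_mul_div, le_div_iff₀ hc0]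
    linarith
  · intro w hw
    by_cases hwR : R ≤ w
    · exact (kap_pos (m + 1) ε w hε hεm hwR).1
    · push Not at hwR
      by_cases hwδ : ζ + δ ≤ w
      · exact h3 w ⟨hwδ, hwR.le⟩
      · push Not at hwδ
        have := hmono ε hεr hvI ⟨by linarith [hv.1], hwδ.le⟩ hw
        simp only at this hv0
        rw [hv0] at this
        exact this
  · intro w hwd hw
    rw [abs_lt] at hwd
    have := hmono ε hεr ⟨by linarith [hwd.1], by linarith [hwd.2]⟩ hvI hw
    simp only at this hv0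
    rw [hv0] at this
    exact this

/-- The minimum of `kap (m+2) ε` on `[0,∞)` is located near `ζ`. -/
lemma min_lemma (m : ℕ) (ζ : ℝ) (hζ0 : 0 ≤ ζ) (hζ : kap (m + 1) 0 ζ = 0)
    (hpos : ∀ u, ζ < u → 0 < kap (m + 1) 0 u) (hpos' : ∀ u, ζ ≤ u → 0 < kap m 0 u) (δ : ℝ)
    (hδ : 0 < δ) :
    ∃ ε₀ > 0, ∃ δ' > 0, ∀ ε, 0 ≤ ε → ε ≤ ε₀ → ∀ u, 0 ≤ u → δ ≤ |u - ζ| → ∀ u', |u' - ζ| < δ' →
      kap (m + 2) ε u' < kap (m + 2) ε u := by
  obtain ⟨hneg, hmin⟩ := sonin m ζ hζ0 hζ hpos hpos'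
  set R : ℝ := ((m + 2 : ℕ) : ℝ) + 3 with hR
  set K : Set ℝ := Set.Icc 0 R ∩ {u | δ ≤ |u - ζ|} with hK
  have hKc : IsCompact K := isCompact_Icc.inter_right
    (isClosed_le continuous_const (continuous_abs.comp (continuous_id.sub continuous_const)))
  -- a gap
  obtain ⟨η, hη, hη0, hgap⟩ : ∃ η, kap (m + 2) 0 ζ < η ∧ η < 0 ∧ ∀ u ∈ K, η < kap (m + 2) 0 u := by
    rcases K.eq_empty_or_nonempty with h | h
    · exact ⟨kap (m + 2) 0 ζ / 2, by linarith, by linarith, by simp [h]⟩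
    · obtain ⟨u₀, hu₀, hu₀'⟩ := hKc.exists_isMinOn h (kap0_cont (m + 2)).continuousOn
      have h1 : kap (m + 2) 0 ζ < kap (m + 2) 0 u₀ := by
        apply hmin u₀ hu₀.1.1
        rintro rfl
        have := hu₀.2
        simp only [Set.mem_ofPred_eq, sub_self, abs_zero] at this
        linarith
      have h2 : kap (m + 2) 0 ζ < min (kap (m + 2) 0 u₀) 0 := lt_min h1 hneg
      refine ⟨(kap (m + 2) 0 ζ + min (kap (m + 2) 0 u₀) 0) / 2, by linarith, ?_, ?_⟩
      · have := min_le_right (kap (m + 2) 0 u₀) 0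
        linarith
      · intro u hu
        have h3 : kap (m + 2) 0 u₀ ≤ kap (m + 2) 0 u := hu₀' hu
        have := min_le_left (kap (m + 2) 0 u₀) 0
        linarith
  have h1 : ∀ᶠ ε in 𝓝 (0 : ℝ), ∀ u ∈ K, η < kap (m + 2) ε u := by
    apply hKc.eventually_forall_of_forall_eventually
    intro u hu
    have hcont : ContinuousAt (fun p : ℝ × ℝ => kap (m + 2) p.1 p.2) (0, u) :=
      (kap_cont (m + 2)).continuousAt
    exact hcont.eventually (lt_mem_nhds (hgap u hu))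
  have h2 : ∀ᶠ p : ℝ × ℝ in 𝓝 (0, ζ), kap (m + 2) p.1 p.2 < η := by
    have hcont : ContinuousAt (fun p : ℝ × ℝ => kap (m + 2) p.1 p.2) (0, ζ) :=
      (kap_cont (m + 2)).continuousAt
    exact hcont.eventually (gt_mem_nhds hη)
  obtain ⟨r1, hr1, hr1'⟩ := Metric.eventually_nhds_iff.mp h1
  obtain ⟨r2, hr2, hr2'⟩ := Metric.eventually_nhds_iff.mp h2
  have hm2 : (0 : ℝ) < ((m + 2 : ℕ) : ℝ) := by positivity
  refine ⟨min (min (r1 / 2) (r2 / 2)) (1 / ((m + 2 : ℕ) : ℝ)), by positivity, r2, hr2, ?_⟩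
  intro ε hε hεε u hu huδ u' hu'
  have e1 : dist ε 0 < r1 := by
    rw [Real.dist_eq, sub_zero, abs_of_nonneg hε]
    have : ε ≤ r1 / 2 := hεε.trans ((min_le_left _ _).trans (min_le_left _ _))
    linarith
  have e2 : |ε| < r2 := by
    rw [abs_of_nonneg hε]
    have : ε ≤ r2 / 2 := hεε.trans ((min_le_left _ _).trans (min_le_right _ _))
    linarith
  have e3 : ((m + 2 : ℕ) : ℝ) * ε ≤ 1 := by
    have : ε ≤ 1 / ((m + 2 : ℕ) : ℝ) := hεε.trans (min_le_right _ _)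
    rw [le_div_iff₀ hm2] at this
    linarith
  have h3 : kap (m + 2) ε u' < η := by
    apply hr2' (y := (ε, u'))
    rw [Prod.dist_eq, max_lt_iff]
    exact ⟨by simpa [Real.dist_eq] using e2, by simpa [Real.dist_eq] using hu'⟩
  refine h3.trans ?_
  by_cases huR : R ≤ u
  · exact hη0.trans (kap_pos (m + 2) ε u hε e3 huR).1
  · push Not at huR
    exact hr1' e1 u ⟨⟨hu, huR.le⟩, huδ⟩

end Pool.Agent.Lib.P66ba75
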