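import Mathlib
import Pool.Agent.Lib.P66ba75.Eps

namespace Pool.Agent.Lib.P66ba75

open Finset Filter Topology

lemma kraw_even_abs (m n : ℕ) (hm : Even m) (hn : 0 < n) (x : ℝ) :
    kraw m n x = (√(n : ℝ)) ^ m * kap m (1 / n) ((2 * x - n) / √(n : ℝ)) := by
  rw [kraw_eq_kap m n hn x]
  have : ((n : ℝ) - 2 * x) / √(n : ℝ) = -((2 * x - n) / √(n : ℝ)) := by ring
  rw [this, kap_neg, hm.neg_one_pow, one_mul]

lemma kraw_odd_neg (m n : ℕ) (hm : Odd m) (hn : 0 < n) (x : ℝ) :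
    kraw m n x = -((√(n : ℝ)) ^ m * kap m (1 / n) ((2 * x - n) / √(n : ℝ))) := by
  rw [kraw_eq_kap m n hn x]
  have : ((n : ℝ) - 2 * x) / √(n : ℝ) = -((2 * x - n) / √(n : ℝ)) := by ring
  rw [this, kap_neg, hm.neg_one_pow]
  ring


lemma sqrt_facts (n : ℕ) (hn : 2 ≤ n) : ∀ s t : ℝ, s = √((n - 1 : ℕ) : ℝ) → t = √(n : ℝ) →
    s ^ 2 = (n : ℝ) - 1 ∧ t ^ 2 = n ∧ 0 < s ∧ 0 < t ∧ s ≤ t ∧ t ≤ s + 1 ∧ t - s ≤ 1 / s := by
  intro s t hs ht
  have hncast : (((n - 1 : ℕ) : ℕ) : ℝ) = (n : ℝ) - 1 := by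
    rw [Nat.cast_sub (by omega)]; simp
  have hn' : (2 : ℝ) ≤ n := by exact_mod_cast hn
  have hs2 : s ^ 2 = (n : ℝ) - 1 := by
    rw [hs, Real.sq_sqrt (by positivity), hncast]
  have ht2 : t ^ 2 = n := by rw [ht]; exact Real.sq_sqrt (by positivity)
  have hs0 : 0 < s := by
    rw [hs]; apply Real.sqrt_pos.mpr; rw [hncast]; linarith
  have ht0 : 0 < t := by
    rw [ht]; apply Real.sqrt_pos.mpr; linarith
  have hst : s ≤ t := by
    rw [hs, ht]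
    apply Real.sqrt_le_sqrt
    rw [hncast]; linarith
  refine ⟨hs2, ht2, hs0, ht0, hst, ?_, ?_⟩
  · by_contra hcon
    push Not at hcon
    nlinarith
  · rw [le_div_iff₀ hs0]
    nlinarith

lemma num_big (ζ δ s t n : ℝ) (hζ : 0 < ζ) (hδ : 0 < δ) (hs2 : s ^ 2 = n - 1) (hts : t ≤ s + 1)
    (hF : ζ + δ + 4 ≤ s) : (ζ + δ) * t + 2 ≤ n := by
  have h1 : (ζ + δ) * t ≤ (ζ + δ) * (s + 1) := mul_le_mul_of_nonneg_left hts (by positivity)
  have h2 : (ζ + δ + 4) * s ≤ s * s := mul_le_mul_of_nonneg_right hF (by linarith)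
  nlinarith

lemma num_window (ζ δ s t n a x : ℝ) (hζ : 0 < ζ) (hδ : 0 < δ) (hδζ : δ ≤ ζ / 2)
    (hst : s ≤ t) (hts : t ≤ s + 1) (hE : 2 * (ζ + δ + 3) < δ * s)
    (h1 : (ζ - δ / 2) * t < 2 * a - n) (h2 : 2 * a - n < (ζ + δ / 2) * t) (hx : -1 ≤ x - a)
    (hx' : x - a ≤ 1) : -(δ * s) < 2 * x - (n - 1) - ζ * s ∧ 2 * x - (n - 1) - ζ * s < δ * s := by
  have e1 : (ζ - δ / 2) * s ≤ (ζ - δ / 2) * t := mul_le_mul_of_nonneg_left hst (by linarith)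
  have e2 : (ζ + δ / 2) * t ≤ (ζ + δ / 2) * (s + 1) := mul_le_mul_of_nonneg_left hts (by linarith)
  constructor <;> nlinarith

lemma floor_lemma (ρ : ℝ) (a : ℕ) (h1 : ρ ≤ a) (h2 : (a : ℝ) ≤ ρ + 1) :
    (a : ℤ) = ⌊ρ⌋ + 1 ∨ (a : ℝ) = ρ := by
  by_cases h : (a : ℝ) = ρ
  · exact Or.inr h
  · left
    have h2' : ρ < a := lt_of_le_of_ne h1 (fun h' => h h'.symm)
    have h3 : ⌊ρ⌋ < (a : ℤ) := by
      rw [Int.floor_lt]; exact_mod_cast h2'
    have h4 : (a : ℤ) ≤ ⌊ρ⌋ + 1 := by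
      have h5 : (((a : ℤ) - 1 : ℤ) : ℝ) ≤ ρ := by push_cast; linarith
      have := Int.le_floor.mpr h5
      omega
    omega

lemma asym_lemma (C ζ v s t ρ n : ℝ) (hζ0 : 0 < ζ) (hC : 0 ≤ C) (hs0 : 0 < s) (ht0 : 0 < t)
    (hst : s ≤ t) (ht2s : t ≤ 2 * s) (hts' : t - s ≤ 1 / s)
    (hvC : |v - ζ| ≤ C * (1 / s ^ 2)) (hρ : ρ = (n - 1 + v * s) / 2) :
    |ρ - (n - 1 + ζ * t) / 2| ≤ (C + ζ) / t := by
  have e1 : ρ - (n - 1 + ζ * t) / 2 = ((v - ζ) * s - ζ * (t - s)) / 2 := by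
    rw [hρ]; ring
  have e2 : |(v - ζ) * s - ζ * (t - s)| ≤ |v - ζ| * s + ζ * (t - s) := by
    have h1 := abs_sub ((v - ζ) * s) (ζ * (t - s))
    rw [abs_mul, abs_mul, abs_of_pos hs0, abs_of_pos hζ0,
      abs_of_nonneg (by linarith : 0 ≤ t - s)] at h1
    exact h1
  have e3 : |v - ζ| * s ≤ C / s := by
    have h2 := mul_le_mul_of_nonneg_right hvC hs0.le
    have h3 : C * (1 / s ^ 2) * s = C / s := by field_simp
    rwa [h3] at h2
  have e4 : ζ * (t - s) ≤ ζ / s := by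
    have := mul_le_mul_of_nonneg_left hts' hζ0.le
    rwa [mul_one_div] at this
  have e5 : (C + ζ) / s / 2 ≤ (C + ζ) / t := by
    rw [div_div]
    apply div_le_div_of_nonneg_left (by positivity) ht0
    linarith
  rw [e1, abs_div, abs_of_pos (by norm_num : (0 : ℝ) < 2)]
  have e6 : (C + ζ) / s = C / s + ζ / s := by rw [add_div]
  linarith

/-- Core theorem for even `M = m + 2 ≥ 4`. -/
theorem core (m : ℕ) (hm : Even m) (hm1 : 1 ≤ m) (ζ : ℝ) (hζ0 : 0 < ζ)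
    (hζ : kap (m + 1) 0 ζ = 0)
    (hpos : ∀ u, ζ < u → 0 < kap (m + 1) 0 u) (hpos' : ∀ u, ζ ≤ u → 0 < kap m 0 u) :
    ∃ (n₀ : ℕ) (C : ℝ), ∀ n : ℕ, n₀ ≤ n → ∃ ρ : ℝ,
      IsGreatest {x : ℝ | kraw (m + 1) (n - 1) x = 0} ρ ∧
      |ρ - ((n : ℝ) - 1 + ζ * √(n : ℝ)) / 2| ≤ C / √(n : ℝ) ∧
      ∀ a : ℕ, a ≤ n → ((∀ b ≤ n, kraw (m + 2) n a ≤ kraw (m + 2) n b) ↔
        ((a : ℤ) = ⌊ρ⌋ + 1 ∨ (a : ℝ) = ρ ∨ (n : ℤ) - a = ⌊ρ⌋ + 1 ∨ (n : ℝ) - a = ρ)) := by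
  obtain ⟨δ, hδ, hδζ, ε₀, hε₀, C, hC, hroot⟩ :=
    root_lemma m ζ hζ0.le hζ hpos hpos' (ζ / 2) (by positivity)
  obtain ⟨ε₁, hε₁, δ', hδ', hminl⟩ := min_lemma m ζ hζ0.le hζ hpos hpos' (δ / 2) (by positivity)
  have hm1o : Odd (m + 1) := hm.add_one
  have hm2e : Even (m + 2) := by
    obtain ⟨r, hr⟩ := hm
    exact ⟨r + 1, by omega⟩
  -- the threshold
  set T : ℝ := 1 + 1 / ε₀ + 1 / ε₁ + 2 / δ' + 2 * (ζ + δ + 3) / δ + (ζ + δ + 4) + 2 / ζ with hT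
  have hT1 : 1 ≤ T := by
    have : 0 ≤ 1 / ε₀ + 1 / ε₁ + 2 / δ' + 2 * (ζ + δ + 3) / δ + (ζ + δ + 4) + 2 / ζ := by positivity
    linarith
  refine ⟨⌈T ^ 2⌉₊ + 2, C + ζ, ?_⟩
  intro n hn
  have hn2 : 2 ≤ n := by omega
  set s : ℝ := √((n - 1 : ℕ) : ℝ) with hs
  have hncast : (((n - 1 : ℕ) : ℕ) : ℝ) = (n : ℝ) - 1 := by
    rw [Nat.cast_sub (by omega)]; simp
  have hs2 : s ^ 2 = (n : ℝ) - 1 := by
    rw [hs, Real.sq_sqrt (by positivity), hncast]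
  have hsT : T ≤ s := by
    rw [hs]
    apply Real.le_sqrt_of_sq_le
    rw [hncast]
    have h1 : T ^ 2 ≤ (⌈T ^ 2⌉₊ : ℝ) := Nat.le_ceil _
    have h2 : ((⌈T ^ 2⌉₊ + 2 : ℕ) : ℝ) ≤ n := by exact_mod_cast hn
    push_cast at h2
    linarith
  have hs1 : 1 ≤ s := hT1.trans hsT
  have hs0 : 0 < s := by linarith
  have hpart : ∀ x : ℝ, 0 ≤ x → x ≤ T → x ≤ s := fun x _ h => h.trans hsT
  have hA : 1 / ε₀ ≤ s := by
    apply le_trans _ hsT
    have : 0 ≤ 1 + 1 / ε₁ + 2 / δ' + 2 * (ζ + δ + 3) / δ + (ζ + δ + 4) + 2 / ζ := by positivity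
    linarith
  have hB : 1 / ε₁ ≤ s := by
    apply le_trans _ hsT
    have : 0 ≤ 1 + 1 / ε₀ + 2 / δ' + 2 * (ζ + δ + 3) / δ + (ζ + δ + 4) + 2 / ζ := by positivity
    linarith
  have hD : 2 / δ' ≤ s := by
    apply le_trans _ hsT
    have : 0 ≤ 1 + 1 / ε₀ + 1 / ε₁ + 2 * (ζ + δ + 3) / δ + (ζ + δ + 4) + 2 / ζ := by positivity
    linarith
  have hE : 2 * (ζ + δ + 3) / δ < s := by
    apply lt_of_lt_of_le _ hsT
    have : 0 ≤ 1 / ε₀ + 1 / ε₁ + 2 / δ' + (ζ + δ + 4) + 2 / ζ := by positivity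
    linarith
  have hF : ζ + δ + 4 ≤ s := by
    apply le_trans _ hsT
    have : 0 ≤ 1 + 1 / ε₀ + 1 / ε₁ + 2 / δ' + 2 * (ζ + δ + 3) / δ + 2 / ζ := by positivity
    linarith
  have hG : 2 / ζ ≤ s := by
    apply le_trans _ hsT
    have : 0 ≤ 1 + 1 / ε₀ + 1 / ε₁ + 2 / δ' + 2 * (ζ + δ + 3) / δ + (ζ + δ + 4) := by positivity
    linarith
  -- properties of `√n`
  set t : ℝ := √(n : ℝ) with ht
  obtain ⟨-, ht2, -, ht0, hst, hts, hts'⟩ := sqrt_facts n hn2 s t hs ht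
  have ht2s : t ≤ 2 * s := by linarith
  have hnbig : (ζ + δ) * t + 2 ≤ n := num_big ζ δ s t n hζ0 hδ hs2 hts hF
  have hεn : (1 : ℝ) / n ≤ ε₁ := by
    have h1 : 1 ≤ ε₁ * s := by rw [div_le_iff₀ hε₁] at hB; linarith
    rw [div_le_iff₀ (by positivity)]
    have hsn : s ≤ n := by
      have : s * 1 ≤ s * s := mul_le_mul_of_nonneg_left hs1 hs0.le
      rw [← sq, hs2] at this
      linarith
    have : ε₁ * s ≤ ε₁ * n := mul_le_mul_of_nonneg_left hsn hε₁.le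
    linarith
  have hεn' : (1 : ℝ) / ((n - 1 : ℕ) : ℝ) ≤ ε₀ := by
    have h1 : 1 ≤ ε₀ * s := by rw [div_le_iff₀ hε₀] at hA; linarith
    have hpos1 : (0 : ℝ) < ((n - 1 : ℕ) : ℝ) := by
      rw [hncast, ← hs2]; positivity
    rw [div_le_iff₀ hpos1, hncast, ← hs2]
    have hsn : s ≤ s ^ 2 := by
      have : s * 1 ≤ s * s := mul_le_mul_of_nonneg_left hs1 hs0.le
      rw [sq]; linarith
    have : ε₀ * s ≤ ε₀ * s ^ 2 := mul_le_mul_of_nonneg_left hsn hε₀.le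
    linarith
  have hεn0 : (0 : ℝ) ≤ 1 / n := by positivity
  have hεn0' : (0 : ℝ) ≤ 1 / ((n - 1 : ℕ) : ℝ) := by positivity
  obtain ⟨v, hvδ, hvC, hv0, hvpos, hvneg⟩ := hroot _ hεn0' hεn'
  have hn1 : 0 < n - 1 := by omega
  have hn0 : 0 < n := by omega
  have hv1 := (abs_lt.mp hvδ).1
  have hv2 := (abs_lt.mp hvδ).2
  -- the largest zero
  set ρ : ℝ := ((n : ℝ) - 1 + v * s) / 2 with hρ
  have hg : ∀ x : ℝ, kraw (m + 1) (n - 1) x
      = -(s ^ (m + 1) * kap (m + 1) (1 / ((n - 1 : ℕ) : ℝ)) ((2 * x - ((n : ℝ) - 1)) / s)) := by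
    intro x
    rw [kraw_odd_neg (m + 1) (n - 1) hm1o hn1 x, ← hs, hncast]
  have hwρ : (2 * ρ - ((n : ℝ) - 1)) / s = v := by
    rw [hρ]; field_simp; ring
  have hgρ : kraw (m + 1) (n - 1) ρ = 0 := by
    rw [hg, hwρ, hv0]; simp
  have hspow : 0 < s ^ (m + 1) := by positivity
  have hgneg : ∀ x : ℝ, ρ < x → kraw (m + 1) (n - 1) x < 0 := by
    intro x hx
    rw [hg]
    have : v < (2 * x - ((n : ℝ) - 1)) / s := by
      rw [← hwρ]
      exact div_lt_div_of_pos_right (by linarith) hs0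
    have := hvpos _ this
    have := mul_pos hspow this
    linarith
  have hgpos : ∀ x : ℝ, |(2 * x - ((n : ℝ) - 1)) / s - ζ| < δ → x < ρ →
      0 < kraw (m + 1) (n - 1) x := by
    intro x hxδ hx
    rw [hg]
    have : (2 * x - ((n : ℝ) - 1)) / s < v := by
      rw [← hwρ]
      exact div_lt_div_of_pos_right (by linarith) hs0
    have := hvneg _ hxδ this
    have := mul_neg_of_pos_of_neg hspow this
    linarith
  have hgreat : IsGreatest {x : ℝ | kraw (m + 1) (n - 1) x = 0} ρ := by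
    refine ⟨hgρ, ?_⟩
    intro x hx
    by_contra hcon
    push Not at hcon
    have := hgneg x hcon
    rw [hx] at this
    exact lt_irrefl _ this
  -- asymptotics
  have hasym : |ρ - ((n : ℝ) - 1 + ζ * t) / 2| ≤ (C + ζ) / t := by
    apply asym_lemma C ζ v s t ρ n hζ0 hC hs0 ht0 hst ht2s hts' _ hρ
    rw [hs2, ← hncast]; exact hvC
  refine ⟨ρ, hgreat, hasym, ?_⟩
  -- symmetric
  have hKsymm : ∀ a : ℕ, a ≤ n → kraw (m + 2) n ((n - a : ℕ) : ℝ) = kraw (m + 2) n a := by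
    intro a ha
    rw [Nat.cast_sub ha, kraw_symm, hm2e.neg_one_pow, one_mul]
  -- difference identities
  have hdiff : ∀ x : ℝ, kraw (m + 2) n x - kraw (m + 2) n (x + 1)
      = 2 * kraw (m + 1) (n - 1) x := by
    intro x
    have := kraw_sub (m + 1) (n - 1) x
    rwa [Nat.sub_add_cancel (by omega : 1 ≤ n)] at this
  -- a good integer
  obtain ⟨a₀, ha₀n, ha₀⟩ : ∃ a₀ : ℕ, a₀ ≤ n ∧ |(2 * (a₀ : ℝ) - n) / t - ζ| < δ' := by
    have hx0 : 0 ≤ ((n : ℝ) + ζ * t) / 2 := by positivity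
    refine ⟨⌊((n : ℝ) + ζ * t) / 2⌋₊, ?_, ?_⟩
    · have h1 : ((⌊((n : ℝ) + ζ * t) / 2⌋₊ : ℕ) : ℝ) ≤ ((n : ℝ) + ζ * t) / 2 := Nat.floor_le hx0
      have h0 : 0 ≤ δ * t := by positivity
      have h2 : ((⌊((n : ℝ) + ζ * t) / 2⌋₊ : ℕ) : ℝ) ≤ n := by linarith
      exact_mod_cast h2
    · have h1 : ((⌊((n : ℝ) + ζ * t) / 2⌋₊ : ℕ) : ℝ) ≤ ((n : ℝ) + ζ * t) / 2 := Nat.floor_le hx0
      have h2 := Nat.lt_floor_add_one (((n : ℝ) + ζ * t) / 2)
      set q : ℝ := ((⌊((n : ℝ) + ζ * t) / 2⌋₊ : ℕ) : ℝ) with hq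
      have h3 : (2 * q - n) / t - ζ = (2 * q - n - ζ * t) / t := by field_simp
      rw [h3, abs_div, abs_of_pos ht0, div_lt_iff₀ ht0, abs_lt]
      have h4 : 2 ≤ δ' * t := by
        rw [div_le_iff₀ hδ'] at hD
        have : δ' * s ≤ δ' * t := mul_le_mul_of_nonneg_left hst hδ'.le
        linarith
      constructor <;> linarith
  -- minimisers on the right half are close to ζ
  have hclose : ∀ a : ℕ, a ≤ n → n ≤ 2 * a → (∀ b ≤ n, kraw (m + 2) n a ≤ kraw (m + 2) n b) →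
      |(2 * (a : ℝ) - n) / t - ζ| < δ / 2 := by
    intro a ha h2a hmin
    by_contra hcon
    push Not at hcon
    have h2a' : (n : ℝ) ≤ 2 * a := by exact_mod_cast h2a
    have hu : 0 ≤ (2 * (a : ℝ) - n) / t := div_nonneg (by linarith) ht0.le
    have h1 := hminl (1 / n) hεn0 hεn _ hu hcon _ ha₀
    have h2 := hmin a₀ ha₀n
    rw [kraw_even_abs _ n hm2e hn0, kraw_even_abs _ n hm2e hn0, ← ht] at h2
    have h3 : 0 < t ^ (m + 2) := by positivity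
    have := lt_of_lt_of_le (mul_lt_mul_of_pos_left h1 h3) h2
    exact lt_irrefl _ this
  -- and lie in `[ρ, ρ+1]`
  have hloc : ∀ a : ℕ, a ≤ n → n ≤ 2 * a → (∀ b ≤ n, kraw (m + 2) n a ≤ kraw (m + 2) n b) →
      ρ ≤ a ∧ (a : ℝ) ≤ ρ + 1 := by
    intro a ha h2a hmin
    have hcl := hclose a ha h2a hmin
    rw [abs_lt] at hcl
    obtain ⟨hcl1, hcl2⟩ := hcl
    have hua : (2 * (a : ℝ) - n) < (ζ + δ / 2) * t := by
      rw [← div_lt_iff₀ ht0]; linarith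
    have hua' : (ζ - δ / 2) * t < (2 * (a : ℝ) - n) := by
      rw [← lt_div_iff₀ ht0]; linarith
    have ha1 : a + 1 ≤ n := by
      have h0 : 0 ≤ δ * t := by positivity
      have : (2 * (a : ℝ)) < 2 * n - 2 := by linarith
      have h : ((a : ℝ) + 1) < n := by linarith
      have : a + 1 < n := by exact_mod_cast h
      omega
    have ha0 : 1 ≤ a := by omega
    have hE' : 2 * (ζ + δ + 3) < δ * s := by
      rw [div_lt_iff₀ hδ] at hE; linarith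
    -- windows
    have hw : ∀ x : ℝ, |x - a| ≤ 1 → |(2 * x - ((n : ℝ) - 1)) / s - ζ| < δ := by
      intro x hx
      rw [abs_le] at hx
      have e1 : (2 * x - ((n : ℝ) - 1)) / s - ζ = (2 * x - ((n : ℝ) - 1) - ζ * s) / s := by
        field_simp
      rw [e1, abs_div, abs_of_pos hs0, div_lt_iff₀ hs0, abs_lt]
      exact num_window ζ δ s t n a x hζ0 hδ hδζ hst hts hE' hua' hua hx.1 hx.2
    constructor
    · by_contra hcon
      push Not at hcon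
      have h1 := hgpos a (hw a (by simp)) hcon
      have h2 := hdiff a
      have h3 := hmin (a + 1) ha1
      push_cast at h3
      linarith
    · by_contra hcon
      push Not at hcon
      have h1 := hgneg ((a : ℝ) - 1) (by linarith)
      have h2 := hdiff ((a : ℝ) - 1)
      rw [sub_add_cancel] at h2
      have h3 := hmin (a - 1) (by omega)
      rw [Nat.cast_sub ha0] at h3
      push_cast at h3
      linarith
  -- a minimiser exists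
  obtain ⟨a₁, ha₁n, ha₁h, ha₁⟩ : ∃ a₁ : ℕ, a₁ ≤ n ∧ n ≤ 2 * a₁ ∧
      ∀ b ≤ n, kraw (m + 2) n a₁ ≤ kraw (m + 2) n b := by
    obtain ⟨a, ha, hamin⟩ := Finset.exists_min_image (Finset.range (n + 1))
      (fun a => kraw (m + 2) n (a : ℝ)) ⟨0, by simp⟩
    have ha' : a ≤ n := by simpa [Nat.lt_succ_iff] using ha
    have hamin' : ∀ b ≤ n, kraw (m + 2) n a ≤ kraw (m + 2) n b := fun b hb =>
      hamin b (by simpa [Nat.lt_succ_iff] using hb)
    by_cases h : n ≤ 2 * a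
    · exact ⟨a, ha', h, hamin'⟩
    · refine ⟨n - a, by omega, by omega, ?_⟩
      intro b hb
      rw [hKsymm a ha']
      exact hamin' b hb
  have hρbig : (n : ℝ) ≤ 2 * ρ := by
    rw [hρ]
    have h1 : ζ / 2 ≤ v := by linarith
    have h2 : 2 ≤ ζ * s := by
      rw [div_le_iff₀ hζ0] at hG; linarith
    have h3 : ζ / 2 * s ≤ v * s := mul_le_mul_of_nonneg_right h1 hs0.le
    linarith
  -- the values at `⌊ρ⌋+1` and at `ρ` (if integral)
  have hloc1 := hloc a₁ ha₁n ha₁h ha₁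
  have hmin1 : ∀ a : ℕ, a ≤ n → ((a : ℤ) = ⌊ρ⌋ + 1 ∨ (a : ℝ) = ρ) →
      ∀ b ≤ n, kraw (m + 2) n a ≤ kraw (m + 2) n b := by
    intro a ha haρ
    -- `a₁ = ⌊ρ⌋ + 1` or `a₁ = ρ`
    have h1 : (a₁ : ℤ) = ⌊ρ⌋ + 1 ∨ (a₁ : ℝ) = ρ := floor_lemma ρ a₁ hloc1.1 hloc1.2
    -- equal values
    have hval : kraw (m + 2) n a = kraw (m + 2) n a₁ := by
      rcases haρ with h | h <;> rcases h1 with h' | h'
      · have : (a : ℤ) = a₁ := by rw [h, h']
        have : a = a₁ := by exact_mod_cast this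
        rw [this]
      · -- a = ρ + 1, a₁ = ρ
        have h3 : ⌊ρ⌋ = (a₁ : ℤ) := by rw [← h']; simp
        have h4 : (a : ℤ) = a₁ + 1 := by rw [h, h3]
        have h5 : (a : ℝ) = (a₁ : ℝ) + 1 := by exact_mod_cast h4
        have h6 := hdiff a₁
        rw [h', hgρ] at h6
        rw [h5, h']
        linarith
      · have h3 : ⌊ρ⌋ = (a : ℤ) := by rw [← h]; simp
        have h4 : (a₁ : ℤ) = a + 1 := by rw [h', h3]
        have h5 : (a₁ : ℝ) = (a : ℝ) + 1 := by exact_mod_cast h4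
        have h6 := hdiff a
        rw [h, hgρ] at h6
        rw [h5, h]
        linarith
      · rw [h, h']
    intro b hb
    rw [hval]
    exact ha₁ b hb
  have hmin2 : ∀ a : ℕ, a ≤ n → n ≤ 2 * a → (∀ b ≤ n, kraw (m + 2) n a ≤ kraw (m + 2) n b) →
      ((a : ℤ) = ⌊ρ⌋ + 1 ∨ (a : ℝ) = ρ) := by
    intro a ha h2a hmin
    obtain ⟨h1, h2⟩ := hloc a ha h2a hmin
    exact floor_lemma ρ a h1 h2
  intro a ha
  constructor
  · intro hmin
    by_cases h : n ≤ 2 * a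
    · rcases hmin2 a ha h hmin with h1 | h1
      · exact Or.inl h1
      · exact Or.inr (Or.inl h1)
    · have hmin' : ∀ b ≤ n, kraw (m + 2) n ((n - a : ℕ) : ℝ) ≤ kraw (m + 2) n b := by
        intro b hb
        rw [hKsymm a ha]
        exact hmin b hb
      rcases hmin2 (n - a) (by omega) (by omega) hmin' with h1 | h1
      · rw [Nat.cast_sub ha] at h1
        exact Or.inr (Or.inr (Or.inl h1))
      · rw [Nat.cast_sub ha] at h1
        exact Or.inr (Or.inr (Or.inr h1))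
  · rintro (h | h | h | h)
    · exact hmin1 a ha (Or.inl h)
    · exact hmin1 a ha (Or.inr h)
    · have := hmin1 (n - a) (by omega) (Or.inl (by rw [Nat.cast_sub ha]; exact h))
      rw [hKsymm a ha] at this
      exact this
    · have := hmin1 (n - a) (by omega) (Or.inr (by rw [Nat.cast_sub ha]; exact h))
      rw [hKsymm a ha] at this
      exact this

end Pool.Agent.Lib.P66ba75
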